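import Mathlib

set_option autoImplicit false

namespace Pool.Agent.K4H73.UL

open Polynomial

/-- the height of an integral polynomial, as in the frozen statement -/
noncomputable def ht (P : ℤ[X]) : ℕ :=
  (Finset.range (P.natDegree + 1)).sup (fun i => (P.coeff i).natAbs)

/-- Every algebraic number `α` of degree at most two and of height at most `X` is farther away from `ζ`
than `H(α)⁻¹ X ^ (-(1 + c))`. -/
def Star (ζ X c : ℝ) : Prop :=
  ∀ α : ℝ, ∀ P : ℤ[X], Irreducible P → P.natDegree ≤ 2 → aeval α P = 0 → (ht P : ℝ) ≤ X →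
    ((ht P : ℝ))⁻¹ * X ^ (-(1 + c)) < |ζ - α|

end Pool.Agent.K4H73.UL
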