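import Mathlib
import Pool.Agent.K4H73.UL.Defs

set_option autoImplicit false

namespace Pool.Agent.K4H73.UL

open Polynomial

namespace AAux

theorem exists_factor (Q : ℤ[X]) (hQ : Q ≠ 0) (α : ℝ) (hα : aeval α Q = 0) :
    ∃ P : ℤ[X], Irreducible P ∧ P ∣ Q ∧ aeval α P = 0 := by
  revert hQ hα
  refine WfDvdMonoid.induction_on_irreducible Q ?_ ?_ ?_
  · intro h; exact absurd rfl h
  · intro u hu _ hα
    exfalso
    have h1 : IsUnit (aeval α u) := hu.map (aeval α)
    rw [hα] at h1
    exact not_isUnit_zero h1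
  · intro b i hb hi ih _ hα
    rw [map_mul] at hα
    rcases mul_eq_zero.mp hα with h1 | h1
    · exact ⟨i, hi, dvd_mul_right _ _, h1⟩
    · obtain ⟨P, hP, hd, h0⟩ := ih hb h1
      exact ⟨P, hP, hd.mul_left _, h0⟩

theorem le_mul_abs (x y : ℤ) (hy : y ≠ 0) : |(x : ℝ)| ≤ |((x * y : ℤ) : ℝ)| := by
  have h1 : (1 : ℝ) ≤ |(y : ℝ)| := by
    have : (1 : ℤ) ≤ |y| := Int.one_le_abs hy
    exact_mod_cast this
  push_cast
  rw [abs_mul]
  nlinarith [abs_nonneg (x : ℝ)]

/-- the quadratic polynomial with given coefficients -/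
noncomputable def qd (a b e : ℤ) : ℤ[X] := C a * X ^ 2 + C b * X + C e

theorem qd_coeff (a b e : ℤ) (n : ℕ) :
    (qd a b e).coeff n = if n = 2 then a else if n = 1 then b else if n = 0 then e else 0 := by
  unfold qd
  simp only [coeff_add, coeff_C_mul, coeff_X_pow, coeff_X, coeff_C]
  rcases n with _ | _ | _ | n <;> simp

theorem qd_deg (a b e : ℤ) : (qd a b e).natDegree ≤ 2 := by
  unfold qd
  exact natDegree_quadratic_le

theorem qd_aeval (a b e : ℤ) (x : ℝ) :
    aeval x (qd a b e) = a * x ^ 2 + b * x + e := by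
  unfold qd
  simp

theorem ht_le (P : ℤ[X]) (h : ℝ) (hP : ∀ i, |(P.coeff i : ℝ)| ≤ h) : (ht P : ℝ) ≤ h := by
  have h0 : 0 ≤ h := (abs_nonneg _).trans (hP 0)
  have h1 : ht P ≤ ⌊h⌋₊ := by
    unfold ht
    refine Finset.sup_le ?_
    intro i _
    refine Nat.le_floor ?_
    have := hP i
    rw [Nat.cast_natAbs]
    exact_mod_cast this
  exact (Nat.cast_le.mpr h1).trans (Nat.floor_le h0)

theorem ht_pos (P : ℤ[X]) (hP : P ≠ 0) : 1 ≤ ht P := by
  have h1 : P.coeff P.natDegree ≠ 0 := by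
    rw [coeff_natDegree]; exact leadingCoeff_ne_zero.mpr hP
  have h2 : (P.coeff P.natDegree).natAbs ≤ ht P := by
    unfold ht
    exact Finset.le_sup (f := fun i => (P.coeff i).natAbs) (Finset.mem_range.mpr (Nat.lt_succ_self _))
  have h3 : 0 < (P.coeff P.natDegree).natAbs := Int.natAbs_pos.mpr h1
  omega

theorem root_bound (ζ X c : ℝ) (hX : 1 ≤ X) (hs : Star ζ X c) (a b e : ℤ) (h : ℝ)
    (ha : |(a : ℝ)| ≤ h) (hb : |(b : ℝ)| ≤ h) (he : |(e : ℝ)| ≤ h) (hh : h ≤ X)
    (h0 : a ≠ 0 ∨ b ≠ 0) (α : ℝ) (hα : a * α ^ 2 + b * α + e = 0) :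
    X ^ (-(1 + c)) < h * |ζ - α| := by
  have hQ : qd a b e ≠ 0 := by
    intro h1
    rcases h0 with h2 | h2
    · have := qd_coeff a b e 2
      rw [h1] at this
      simp at this
      exact h2 this.symm
    · have := qd_coeff a b e 1
      rw [h1] at this
      simp at this
      exact h2 this.symm
  obtain ⟨P, hP, ⟨R, hR⟩, hPα⟩ := exists_factor (qd a b e) hQ α (by rw [qd_aeval]; exact hα)
  have hP0 : P ≠ 0 := hP.ne_zero
  have hR0 : R ≠ 0 := by
    intro h1; rw [h1, mul_zero] at hR; exact hQ hR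
  have hdeg : P.natDegree + R.natDegree ≤ 2 := by
    rw [← natDegree_mul hP0 hR0, ← hR]; exact qd_deg a b e
  have hPd : P.natDegree ≤ 2 := by omega
  have hP1 : P.natDegree ≠ 0 := by
    intro h1
    rw [natDegree_eq_zero] at h1
    obtain ⟨k, hk⟩ := h1
    rw [← hk] at hPα
    simp at hPα
    rw [hPα] at hk
    simp at hk
    exact hP0 hk.symm
  have h0' : 0 ≤ h := (abs_nonneg _).trans ha
  -- coefficients
  have hcoef : ∀ i, |(P.coeff i : ℝ)| ≤ h := by
    intro i
    by_cases h2 : P.natDegree = 2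
    · have hR1 : R.natDegree = 0 := by omega
      rw [natDegree_eq_zero] at hR1
      obtain ⟨k, hk⟩ := hR1
      have hk0 : k ≠ 0 := by
        intro h3; rw [h3] at hk; simp at hk; exact hR0 hk.symm
      have h3 : (qd a b e).coeff i = P.coeff i * k := by
        rw [hR, ← hk, coeff_mul_C]
      have h4 := le_mul_abs (P.coeff i) k hk0
      rw [← h3, qd_coeff] at h4
      refine h4.trans ?_
      split_ifs
      · exact ha
      · exact hb
      · exact he
      · simpa using h0'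
    · have hP2 : P.natDegree ≤ 1 := by omega
      have hR2 : R.natDegree ≤ 1 := by omega
      obtain ⟨u, v, huv⟩ := exists_eq_X_add_C_of_natDegree_le_one hP2
      obtain ⟨s, t, hst⟩ := exists_eq_X_add_C_of_natDegree_le_one hR2
      have hprod : qd a b e = qd (u * s) (u * t + v * s) (v * t) := by
        rw [hR, huv, hst]
        unfold qd
        simp only [C_mul, C_add]
        ring
      have e2 : a = u * s := by
        have := congrArg (fun p => coeff p 2) hprod
        simpa [qd_coeff] using this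
      have e1 : b = u * t + v * s := by
        have := congrArg (fun p => coeff p 1) hprod
        simpa [qd_coeff] using this
      have e0 : e = v * t := by
        have := congrArg (fun p => coeff p 0) hprod
        simpa [qd_coeff] using this
      have hst0 : s ≠ 0 ∨ t ≠ 0 := by
        by_contra hcon
        push Not at hcon
        rw [hcon.1, hcon.2] at hst
        simp at hst
        exact hR0 hst
      have hu : |(u : ℝ)| ≤ h := by
        by_cases hs0 : s = 0
        · have ht0 : t ≠ 0 := hst0.resolve_left (by simpa using hs0)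
          refine (le_mul_abs u t ht0).trans ?_
          have : b = u * t := by rw [e1, hs0]; ring
          rw [← this]; exact hb
        · refine (le_mul_abs u s hs0).trans ?_
          rw [← e2]; exact ha
      have hv : |(v : ℝ)| ≤ h := by
        by_cases ht0 : t = 0
        · have hs0 : s ≠ 0 := hst0.resolve_right (by simpa using ht0)
          refine (le_mul_abs v s hs0).trans ?_
          have : b = v * s := by rw [e1, ht0]; ring
          rw [← this]; exact hb
        · refine (le_mul_abs v t ht0).trans ?_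
          rw [← e0]; exact he
      have h5 : P.coeff i = if i = 1 then u else if i = 0 then v else 0 := by
        rw [huv]
        simp only [coeff_add, coeff_C_mul, coeff_X, coeff_C]
        rcases i with _ | _ | i <;> simp
      rw [h5]
      split_ifs
      · exact hu
      · exact hv
      · simpa using h0'
  have hht : (ht P : ℝ) ≤ h := ht_le P h hcoef
  have hS := hs α P hP hPd hPα (hht.trans hh)
  have hp1 : (1 : ℝ) ≤ ht P := by exact_mod_cast ht_pos P hP0
  have hp0 : (0 : ℝ) < ht P := by linarith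
  rw [inv_mul_lt_iff₀ hp0] at hS
  exact lt_of_lt_of_le hS (mul_le_mul_of_nonneg_right hht (abs_nonneg _))

end AAux

open AAux

theorem claimA (ζ X c : ℝ) (hX : 1 ≤ X) (hs : Star ζ X c) (a b e : ℤ) (h : ℝ)
    (ha : |(a : ℝ)| ≤ h) (hb : |(b : ℝ)| ≤ h) (he : |(e : ℝ)| ≤ h) (hh : h ≤ X) :
    |2 * a * ζ + b| ≤ 2 * |a * ζ ^ 2 + b * ζ + e| * h * X ^ (1 + c) ∨
      (2 * a * ζ + b) ^ 2 ≤ 4 * h * |a * ζ ^ 2 + b * ζ + e| := by
  have hX0 : 0 < X := by linarith
  have h0' : 0 ≤ h := (abs_nonneg _).trans ha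
  have hXp : 0 < X ^ (1 + c) := Real.rpow_pos_of_pos hX0 _
  have hinv : X ^ (-(1 + c)) * X ^ (1 + c) = 1 := by
    rw [← Real.rpow_add hX0]; simp
  -- lower bound for distance to a root
  have key : ∀ α : ℝ, (a ≠ 0 ∨ b ≠ 0) → a * α ^ 2 + b * α + e = 0 →
      1 ≤ |ζ - α| * (h * X ^ (1 + c)) := by
    intro α h1 h2
    have h3 := root_bound ζ X c hX hs a b e h ha hb he hh h1 α h2
    have h4 := mul_lt_mul_of_pos_right h3 hXp
    rw [hinv] at h4
    linarith
  by_cases ha0 : a = 0
  · left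
    by_cases hb0 : b = 0
    · rw [ha0, hb0]
      simp
      positivity
    · have hbr : (b : ℝ) ≠ 0 := by exact_mod_cast hb0
      have h1 := key (-(e : ℝ) / b) (Or.inr hb0) (by rw [ha0]; push_cast; field_simp; ring)
      have h2 : (a : ℝ) * ζ ^ 2 + b * ζ + e = b * (ζ - (-(e : ℝ) / b)) := by
        rw [ha0]; push_cast; field_simp; ring
      rw [h2, abs_mul, ha0]
      push_cast
      have h3 : |(2 : ℝ) * 0 * ζ + b| = |(b : ℝ)| := by norm_num
      rw [h3]
      have h4 : |(b : ℝ)| ≤ |(b : ℝ)| * (|ζ - (-(e : ℝ) / b)| * (h * X ^ (1 + c))) := by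
        nlinarith [abs_nonneg (b : ℝ)]
      have h5 : 0 ≤ |(b : ℝ)| * (|ζ - (-(e : ℝ) / b)| * (h * X ^ (1 + c))) :=
        (abs_nonneg _).trans h4
      nlinarith
  · have har : (a : ℝ) ≠ 0 := by exact_mod_cast ha0
    by_cases hD : (b : ℝ) ^ 2 - 4 * a * e < 0
    · right
      have h1 : (2 * (a : ℝ) * ζ + b) ^ 2
          = 4 * a * (a * ζ ^ 2 + b * ζ + e) + ((b : ℝ) ^ 2 - 4 * a * e) := by ring
      rw [h1]
      have h2 : (a : ℝ) * (a * ζ ^ 2 + b * ζ + e) ≤ |(a : ℝ)| * |(a : ℝ) * ζ ^ 2 + b * ζ + e| := by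
        rw [← abs_mul]; exact le_abs_self _
      have h3 : |(a : ℝ)| * |(a : ℝ) * ζ ^ 2 + b * ζ + e| ≤ h * |(a : ℝ) * ζ ^ 2 + b * ζ + e| :=
        mul_le_mul_of_nonneg_right ha (abs_nonneg _)
      linarith
    · left
      push Not at hD
      set s := Real.sqrt ((b : ℝ) ^ 2 - 4 * a * e) with hs'
      have hss : s ^ 2 = (b : ℝ) ^ 2 - 4 * a * e := Real.sq_sqrt hD
      set α := (-(b : ℝ) + s) / (2 * a) with hα
      set β := (-(b : ℝ) - s) / (2 * a) with hβ
      have hαr : (a : ℝ) * α ^ 2 + b * α + e = 0 := by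
        rw [hα]; field_simp; nlinarith
      have hβr : (a : ℝ) * β ^ 2 + b * β + e = 0 := by
        rw [hβ]; field_simp; nlinarith
      have k1 := key α (Or.inl ha0) hαr
      have k2 := key β (Or.inl ha0) hβr
      have hsum : α + β = -(b : ℝ) / a := by rw [hα, hβ]; field_simp; ring
      have hd : 2 * (a : ℝ) * ζ + b = a * (ζ - α) + a * (ζ - β) := by
        have : (a : ℝ) * (α + β) = -b := by rw [hsum]; field_simp
        linear_combination this
      have hprod : (a : ℝ) * (α * β) = e := by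
        have h1 : α * β = ((b : ℝ) ^ 2 - s ^ 2) / (4 * a ^ 2) := by
          rw [hα, hβ]; field_simp; ring
        rw [h1, hss]; field_simp; ring
      have hv : (a : ℝ) * ζ ^ 2 + b * ζ + e = a * (ζ - α) * (ζ - β) := by
        have h1 : (a : ℝ) * (α + β) = -b := by rw [hsum]; field_simp
        linear_combination (-1 : ℝ) * hprod + (ζ) * h1
      rw [hv, hd, abs_mul, abs_mul]
      have t1 : |(a : ℝ) * (ζ - α)| ≤ |(a : ℝ)| * |ζ - α| * (|ζ - β| * (h * X ^ (1 + c))) := by
        rw [abs_mul]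
        have := mul_nonneg (abs_nonneg (a : ℝ)) (abs_nonneg (ζ - α))
        nlinarith
      have t2 : |(a : ℝ) * (ζ - β)| ≤ |(a : ℝ)| * |ζ - β| * (|ζ - α| * (h * X ^ (1 + c))) := by
        rw [abs_mul]
        have := mul_nonneg (abs_nonneg (a : ℝ)) (abs_nonneg (ζ - β))
        nlinarith
      calc |(a : ℝ) * (ζ - α) + a * (ζ - β)| ≤ |(a : ℝ) * (ζ - α)| + |(a : ℝ) * (ζ - β)| :=
            abs_add_le _ _
        _ ≤ |(a : ℝ)| * |ζ - α| * (|ζ - β| * (h * X ^ (1 + c)))
            + |(a : ℝ)| * |ζ - β| * (|ζ - α| * (h * X ^ (1 + c))) := add_le_add t1 t2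
        _ = 2 * (|(a : ℝ)| * |ζ - α| * |ζ - β|) * h * X ^ (1 + c) := by ring

theorem star_rat (ζ X c : ℝ) (hX : 1 ≤ X) (hs : Star ζ X c) (p q : ℤ) (hq : 0 < q)
    (hpq : IsCoprime p q) (hqX : (q : ℝ) ≤ X) (hpX : |(p : ℝ)| ≤ X) :
    X ^ (-(1 + c)) < max |(p : ℝ)| q * |ζ - p / q| := by
  have hqr : (0 : ℝ) < q := by exact_mod_cast hq
  have hm0 : (0 : ℝ) ≤ max |(p : ℝ)| q := le_max_of_le_left (abs_nonneg _)
  refine root_bound ζ X c hX hs 0 q (-p) (max |(p : ℝ)| q) (by simpa using hm0) ?_ ?_ ?_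
    (Or.inr hq.ne') (p / q) ?_
  · rw [abs_of_pos hqr]; exact le_max_right _ _
  · push_cast; rw [abs_neg]; exact le_max_left _ _
  · exact max_le hpX hqX
  · push_cast; field_simp; ring

end Pool.Agent.K4H73.UL
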