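import Mathlib
import Pool.Agent.K4H73.UL.Defs

/-!
# The pigeonhole principle for the values of quadratic polynomials
-/

set_option autoImplicit false

namespace Pool.Agent.K4H73.UL

open Polynomial

theorem pigeon (ζ : ℝ) (N T : ℕ) (hT : 0 < T) :
    ∃ S : Finset (ℤ × ℤ × ℤ), (N + 1) ^ 2 ≤ T * (S.card + 1) ∧
      ∀ x ∈ S, x ≠ 0 ∧ |x.1| ≤ (N : ℤ) ∧ |x.2.1| ≤ (N : ℤ) ∧
        |x.1 * ζ ^ 2 + x.2.1 * ζ + x.2.2| < (1 : ℝ) / T := by
  classical
  have hT' : (0 : ℝ) < T := by exact_mod_cast hT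
  set F : ℕ × ℕ → ℝ := fun x => x.1 * ζ ^ 2 + x.2 * ζ with hF
  set f : ℕ × ℕ → ℕ := fun x => ⌊(T : ℝ) * Int.fract (F x)⌋₊ with hf
  set s : Finset (ℕ × ℕ) := Finset.range (N + 1) ×ˢ Finset.range (N + 1) with hs
  have hfs : ∀ x ∈ s, f x ∈ Finset.range T := by
    intro x _
    rw [Finset.mem_range, hf]
    refine (Nat.floor_lt (by positivity [Int.fract_nonneg (F x)])).2 ?_
    have h1 := Int.fract_lt_one (F x)
    calc (T : ℝ) * Int.fract (F x) < T * 1 := mul_lt_mul_of_pos_left h1 hT'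
      _ = T := mul_one _
  obtain ⟨y, -, hy⟩ := Finset.exists_le_card_fiber_of_nsmul_le_card_of_maps_to
    (b := ((N : ℝ) + 1) ^ 2 / T) hfs (Finset.nonempty_range_iff.2 hT.ne') (by
      rw [Finset.card_range, nsmul_eq_mul, mul_div_cancel₀ _ hT'.ne', hs, Finset.card_product,
        Finset.card_range]
      push_cast
      exact le_of_eq (by ring))
  set B := s.filter fun x => f x = y with hB
  have hB1 : (N + 1) ^ 2 ≤ T * B.card := by
    rw [div_le_iff₀ hT'] at hy
    have h1 : ((N : ℝ) + 1) ^ 2 ≤ T * B.card := by linarith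
    exact_mod_cast h1
  have hBne : B.Nonempty := by
    rw [← Finset.card_pos]
    by_contra h
    have h1 : B.card = 0 := by omega
    rw [h1] at hB1
    have : 0 < (N + 1) ^ 2 := by positivity
    omega
  obtain ⟨x₀, hx₀⟩ := hBne
  set g : ℕ × ℕ → ℤ × ℤ × ℤ := fun x =>
    ((x.1 : ℤ) - x₀.1, (x.2 : ℤ) - x₀.2, -(⌊F x⌋ - ⌊F x₀⌋)) with hg
  have hginj : Function.Injective g := by
    intro x x' h
    simp only [hg, Prod.mk.injEq] at h
    obtain ⟨h1, h2, -⟩ := h
    apply Prod.ext
    · have : (x.1 : ℤ) = x'.1 := by linarith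
      exact_mod_cast this
    · have : (x.2 : ℤ) = x'.2 := by linarith
      exact_mod_cast this
  refine ⟨(B.erase x₀).image g, ?_, ?_⟩
  · rw [Finset.card_image_of_injective _ hginj, Finset.card_erase_of_mem hx₀]
    have : 0 < B.card := Finset.card_pos.2 ⟨x₀, hx₀⟩
    rw [Nat.sub_add_cancel this]
    exact hB1
  · intro z hz
    obtain ⟨x, hx, rfl⟩ := Finset.mem_image.1 hz
    obtain ⟨hne, hxB⟩ := Finset.mem_erase.1 hx
    have hxs := (Finset.mem_filter.1 hxB).1
    have hxs₀ := (Finset.mem_filter.1 hx₀).1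
    have hfx := (Finset.mem_filter.1 hxB).2
    have hfx₀ := (Finset.mem_filter.1 hx₀).2
    rw [hs, Finset.mem_product, Finset.mem_range, Finset.mem_range] at hxs hxs₀
    refine ⟨?_, ?_, ?_, ?_⟩
    · intro h
      simp only [hg, Prod.mk_eq_zero] at h
      apply hne
      apply Prod.ext
      · have : (x.1 : ℤ) = x₀.1 := by linarith [h.1]
        exact_mod_cast this
      · have : (x.2 : ℤ) = x₀.2 := by linarith [h.2.1]
        exact_mod_cast this
    · simp only [hg]
      rw [abs_le]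
      constructor <;> omega
    · simp only [hg]
      rw [abs_le]
      constructor <;> omega
    · have h1 : (((g x).1 : ℤ) : ℝ) * ζ ^ 2 + (((g x).2.1 : ℤ) : ℝ) * ζ + (((g x).2.2 : ℤ) : ℝ) =
          Int.fract (F x) - Int.fract (F x₀) := by
        simp only [hg, Int.fract, hF]
        push_cast
        ring
      rw [h1]
      have h2 : f x = f x₀ := hfx.trans hfx₀.symm
      have h3 := Nat.floor_le (mul_nonneg hT'.le (Int.fract_nonneg (F x)))
      have h4 := Nat.lt_floor_add_one ((T : ℝ) * Int.fract (F x))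
      have h5 := Nat.floor_le (mul_nonneg hT'.le (Int.fract_nonneg (F x₀)))
      have h6 := Nat.lt_floor_add_one ((T : ℝ) * Int.fract (F x₀))
      have h7 : ((f x : ℕ) : ℝ) = f x₀ := by rw [h2]
      simp only [hf] at h7
      have h8 : |(T : ℝ) * (Int.fract (F x) - Int.fract (F x₀))| < 1 := by
        rw [abs_lt]
        constructor <;> linarith
      rw [abs_mul, abs_of_pos hT'] at h8
      rw [lt_div_iff₀ hT', mul_comm]
      exact h8

end Pool.Agent.K4H73.UL
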