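import Pool.Agent.K4H73.UL.A
import Pool.Agent.K4H73.UL.Pig

/-!
# A good rational approximation has a small denominator
-/

set_option autoImplicit false

namespace Pool.Agent.K4H73.UL

open Polynomial

namespace ExclAux

lemma int_zero {R : ℤ} (h : |(R : ℝ)| < 1) : R = 0 := by
  have h1 : |R| < 1 := by exact_mod_cast h
  exact Int.abs_lt_one_iff.1 h1

lemma factor {p q a b e : ℤ} (hq : 0 < q) (hpq : IsCoprime p q)
    (h : a * p ^ 2 + b * p * q + e * q ^ 2 = 0) :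
    ∃ n m : ℤ, a = q * n ∧ b = q * m - p * n ∧ e = -p * m := by
  have hq0 : q ≠ 0 := hq.ne'
  have h1 : q ∣ a := by
    refine IsCoprime.dvd_of_dvd_mul_right (hpq.symm.pow_right (n := 2)) ⟨-(b * p + e * q), ?_⟩
    linear_combination h
  obtain ⟨n, rfl⟩ := h1
  have h2 : n * p ^ 2 + b * p + e * q = 0 := by
    apply mul_left_cancel₀ hq0
    linear_combination h
  have h3 : q ∣ n * p + b := by
    refine IsCoprime.dvd_of_dvd_mul_right hpq.symm ⟨-e, ?_⟩
    linear_combination h2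
  obtain ⟨m, hm⟩ := h3
  refine ⟨n, m, rfl, by linear_combination hm, ?_⟩
  apply mul_left_cancel₀ hq0
  linear_combination h2 - p * hm

lemma factor2 {p q n m : ℤ} (hq : 0 < q) (hpq : IsCoprime p q) (h : q * m + n * p = 0) :
    ∃ s : ℤ, n = s * q ∧ m = -(s * p) := by
  have hq0 : q ≠ 0 := hq.ne'
  have h1 : q ∣ n := by
    refine IsCoprime.dvd_of_dvd_mul_right hpq.symm ⟨-m, ?_⟩
    linear_combination h
  obtain ⟨s, rfl⟩ := h1
  refine ⟨s, mul_comm _ _, ?_⟩
  apply mul_left_cancel₀ hq0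
  linear_combination h

lemma main (ζ c C₁ : ℝ) (hc : 0 < c) (hC : 1 ≤ C₁) :
    ∃ C X₀ : ℝ, ∀ X : ℝ, X₀ ≤ X → Star ζ X c → ∀ p q : ℤ, 0 < q → IsCoprime p q →
      (q : ℝ) ^ 2 ≤ C₁ * X → |q * ζ - p| ≤ C₁ * X⁻¹ → (q : ℝ) ≤ C * X ^ c := by
  obtain ⟨Z, hZ⟩ : ∃ Z : ℝ, Z = 1 + ζ ^ 2 + |ζ| := ⟨_, rfl⟩
  obtain ⟨C', hC'⟩ : ∃ C' : ℝ, C' = |ζ| + 1 := ⟨_, rfl⟩
  have hζ0 : 0 ≤ |ζ| := abs_nonneg ζ
  have hZ1 : 1 ≤ Z := by
    rw [hZ]
    nlinarith [sq_nonneg ζ]
  have hC'1 : 1 ≤ C' := by linarith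
  have hC0 : 0 < C₁ := by linarith
  have hC'0 : 0 < C' := by linarith
  have hZ0 : 0 < Z := by linarith
  obtain ⟨κ, hκ⟩ : ∃ κ : ℝ, κ = 1 / (8 * C' * C₁) := ⟨_, rfl⟩
  have hκ0 : 0 < κ := by rw [hκ]; positivity
  have hκe : κ * (8 * C' * C₁) = 1 := by rw [hκ]; field_simp
  have hκ1 : κ * C' ≤ 1 / 4 := by
    have : κ * C' * 1 ≤ κ * C' * C₁ := mul_le_mul_of_nonneg_left hC (by positivity)
    nlinarith
  have hκ2 : 2 * κ * C₁ ≤ 1 / 4 := by
    have : κ * C₁ * 1 ≤ κ * C₁ * C' := mul_le_mul_of_nonneg_left hC'1 (by positivity)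
    nlinarith
  have hκ3 : κ ≤ 1 / 4 := by
    have : κ * 1 ≤ κ * C' := mul_le_mul_of_nonneg_left hC'1 hκ0.le
    linarith
  refine ⟨max (2 * C₁) (4 * Z ^ 2 * (1 + C₁) / κ), 16 * C₁ ^ 3 + C' ^ 2 * C₁ + Z,
    fun X hX hs p q hq hpq hqX hl => ?_⟩
  have hC3 : 0 < C₁ ^ 3 := by positivity
  have hC'2 : 0 < C' ^ 2 * C₁ := by positivity
  have hX1 : 16 * C₁ ^ 3 ≤ X := by linarith
  have hX2 : C' ^ 2 * C₁ ≤ X := by linarith
  have hX3 : Z ≤ X := by linarith
  have hXone : 1 ≤ X := by linarith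
  have hX0 : 0 < X := by linarith
  have hC2 : C₁ ^ 2 ≤ C₁ ^ 3 := pow_le_pow_right₀ hC (by norm_num)
  have hC1 : C₁ ≤ C₁ ^ 2 := by nlinarith
  obtain ⟨Y, hY⟩ : ∃ Y : ℝ, Y = X ^ (1 + c) := ⟨_, rfl⟩
  have hXc : 1 ≤ X ^ c := Real.one_le_rpow hXone hc.le
  have hYX : Y = X * X ^ c := by rw [hY, Real.rpow_add hX0, Real.rpow_one]
  have hXY : X ≤ Y := by
    rw [hYX]
    exact le_mul_of_one_le_right hX0.le hXc
  have hY0 : 0 < Y := by linarith
  have hq1 : (1 : ℝ) ≤ q := by exact_mod_cast hq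
  have hq0 : (0 : ℝ) < q := by linarith
  have hqC' : C' * q ≤ X := by
    refine le_of_sq_le_sq ?_ hX0.le
    calc (C' * q) ^ 2 = C' ^ 2 * (q : ℝ) ^ 2 := by ring
      _ ≤ C' ^ 2 * (C₁ * X) := mul_le_mul_of_nonneg_left hqX (by positivity)
      _ = C' ^ 2 * C₁ * X := by ring
      _ ≤ X * X := mul_le_mul_of_nonneg_right hX2 hX0.le
      _ = X ^ 2 := by ring
  have hqX' : (q : ℝ) ≤ X := by
    have : 1 * (q : ℝ) ≤ C' * q := mul_le_mul_of_nonneg_right hC'1 hq0.le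
    linarith
  obtain ⟨l, hldef⟩ : ∃ l : ℝ, l = |q * ζ - p| := ⟨_, rfl⟩
  rw [← hldef, ← div_eq_mul_inv] at hl
  have hlX : l * X ≤ C₁ := (le_div_iff₀ hX0).1 hl
  have hl1 : l ≤ 1 := hl.trans ((div_le_one hX0).2 (by linarith))
  have hl0 : 0 ≤ l := by rw [hldef]; exact abs_nonneg _
  have hp : |(p : ℝ)| ≤ C' * q := by
    have h1 : |(p : ℝ)| ≤ |q * ζ| + |q * ζ - p| := by
      have := abs_sub (q * ζ) (q * ζ - p)
      rwa [sub_sub_cancel] at this
    rw [abs_mul, abs_of_pos hq0, ← hldef] at h1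
    rw [hC']
    nlinarith
  have hst := star_rat ζ X c hXone hs p q hq hpq hqX' (hp.trans hqC')
  have hmax : max |(p : ℝ)| q ≤ C' * q :=
    max_le hp (by nlinarith)
  have hll : 1 < C' * l * Y := by
    have e1 : |ζ - p / q| = l / q := by
      rw [hldef, eq_div_iff hq0.ne', ← abs_of_pos hq0, ← abs_mul, abs_of_pos hq0]
      congr 1
      field_simp
    rw [e1] at hst
    have h1 : Y⁻¹ < C' * l := by
      calc Y⁻¹ = X ^ (-(1 + c)) := by rw [Real.rpow_neg hX0.le, hY]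
        _ < max |(p : ℝ)| q * (l / q) := hst
        _ ≤ C' * q * (l / q) := mul_le_mul_of_nonneg_right hmax (by positivity)
        _ = C' * l := by field_simp
    calc 1 = Y⁻¹ * Y := by field_simp
      _ < C' * l * Y := mul_lt_mul_of_pos_right h1 hY0
  by_cases hq2 : (q : ℝ) ≤ 2 * C₁
  · calc (q : ℝ) ≤ 2 * C₁ := hq2
      _ ≤ max (2 * C₁) (4 * Z ^ 2 * (1 + C₁) / κ) := le_max_left _ _
      _ ≤ _ := le_mul_of_one_le_right (le_max_of_le_left (by positivity)) hXc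
  rw [not_le] at hq2
  have hlpos : 0 < l := by
    rcases hl0.lt_or_eq with h | h
    · exact h
    · rw [← h] at hll
      simp at hll
      linarith
  -- the box
  obtain ⟨T, hT⟩ : ∃ T : ℕ, T = ⌈q * Y / κ⌉₊ := ⟨_, rfl⟩
  have hT0 : 0 < T := by rw [hT]; exact Nat.ceil_pos.2 (by positivity)
  have hT0' : (0 : ℝ) < T := by exact_mod_cast hT0
  have hT1 : q * Y / κ ≤ T := by rw [hT]; exact Nat.le_ceil _
  have hqY : 1 ≤ q * Y / κ := by
    rw [le_div_iff₀ hκ0]
    have : (1 : ℝ) * 1 ≤ q * Y := mul_le_mul hq1 (hXone.trans hXY) (by norm_num) hq0.le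
    linarith
  have hT2 : (T : ℝ) ≤ 2 * (q * Y / κ) := by
    have := Nat.ceil_lt_add_one (show 0 ≤ q * Y / κ by positivity)
    rw [← hT] at this
    linarith
  have hTi : (1 : ℝ) / T ≤ κ / (q * Y) := by
    rw [div_le_div_iff₀ hT0' (by positivity), one_mul]
    rw [div_le_iff₀ hκ0] at hT1
    linarith
  obtain ⟨N, hN⟩ : ∃ N : ℕ, N = ⌊X / Z⌋₊ := ⟨_, rfl⟩
  have hN1 : (N : ℝ) ≤ X / Z := by rw [hN]; exact Nat.floor_le (by positivity)
  have hN2 : X / Z < N + 1 := by rw [hN]; exact Nat.lt_floor_add_one _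
  have hNZ : (N : ℝ) * Z ≤ X := (le_div_iff₀ hZ0).1 hN1
  have hNX : (N : ℝ) ≤ X := by
    have : (N : ℝ) * 1 ≤ N * Z := mul_le_mul_of_nonneg_left hZ1 (Nat.cast_nonneg _)
    linarith
  obtain ⟨S, hS1, hS2⟩ := pigeon ζ N T hT0
  obtain ⟨K, hK⟩ : ∃ K : ℕ, K = ⌊X / (q : ℝ) ^ 2⌋₊ := ⟨_, rfl⟩
  have hsub : S ⊆ (Finset.Icc (-(K : ℤ)) K).image
      (fun s => (s * q ^ 2, -(2 * s * p * q), s * p ^ 2)) := by
    rintro ⟨a, b, e⟩ hx
    obtain ⟨hx0, hxa, hxb, hxv⟩ := hS2 _ hx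
    simp only at hxa hxb hxv
    obtain ⟨v, hv⟩ : ∃ v : ℝ, v = a * ζ ^ 2 + b * ζ + e := ⟨_, rfl⟩
    obtain ⟨d, hd⟩ : ∃ d : ℝ, d = 2 * a * ζ + b := ⟨_, rfl⟩
    rw [← hv] at hxv
    have hxa' : |(a : ℝ)| ≤ N := by exact_mod_cast hxa
    have hxb' : |(b : ℝ)| ≤ N := by exact_mod_cast hxb
    have hv1 : |v| * (q * Y) ≤ κ := (le_div_iff₀ (by positivity)).1 (hxv.le.trans hTi)
    have hv0 : 0 ≤ |v| := abs_nonneg v
    have hvX : |v| * q * X ≤ κ := by
      have : |v| * q * X ≤ |v| * q * Y := mul_le_mul_of_nonneg_left hXY (by positivity)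
      linarith
    have hvq : |v| * q ≤ κ := by
      have : |v| * q * 1 ≤ |v| * q * X := mul_le_mul_of_nonneg_left hXone (by positivity)
      linarith
    have hv2 : |v| ≤ 1 := by
      have : |v| * 1 ≤ |v| * q := mul_le_mul_of_nonneg_left hq1 hv0
      linarith
    have he : |(e : ℝ)| ≤ X := by
      have e1 : (e : ℝ) = v - (a * ζ ^ 2 + b * ζ) := by rw [hv]; ring
      have e2 : |(e : ℝ)| ≤ |v| + (|(a : ℝ)| * ζ ^ 2 + |(b : ℝ)| * |ζ|) := by
        rw [e1]
        refine (abs_sub _ _).trans (add_le_add le_rfl ?_)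
        refine (abs_add_le _ _).trans ?_
        rw [abs_mul, abs_mul, abs_of_nonneg (sq_nonneg ζ)]
      have e3 : |(a : ℝ)| * ζ ^ 2 ≤ N * ζ ^ 2 := mul_le_mul_of_nonneg_right hxa' (sq_nonneg ζ)
      have e4 : |(b : ℝ)| * |ζ| ≤ N * |ζ| := mul_le_mul_of_nonneg_right hxb' hζ0
      have e5 : (N : ℝ) * Z = N + N * ζ ^ 2 + N * |ζ| := by rw [hZ]; ring
      have e6 : (1 : ℝ) ≤ N := by
        have : 1 ≤ N := by
          rw [hN]
          exact Nat.le_floor (by rw [Nat.cast_one, le_div_iff₀ hZ0]; linarith)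
        exact_mod_cast this
      linarith
    -- R = 0
    have hR : a * p ^ 2 + b * p * q + e * q ^ 2 = 0 := by
      apply int_zero
      have e1 : ((a * p ^ 2 + b * p * q + e * q ^ 2 : ℤ) : ℝ) =
          q ^ 2 * v - q * (q * ζ - p) * d + (q * ζ - p) ^ 2 * a := by
        rw [hv, hd]
        push_cast
        ring
      have e2 : |(q : ℝ) ^ 2 * v - q * (q * ζ - p) * d + (q * ζ - p) ^ 2 * a| ≤
          q ^ 2 * |v| + q * l * |d| + l ^ 2 * |(a : ℝ)| := by
        refine (abs_add_le _ _).trans (add_le_add ((abs_sub _ _).trans (add_le_add ?_ ?_)) ?_)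
        · rw [abs_mul, abs_of_pos (show (0 : ℝ) < (q : ℝ) ^ 2 by positivity)]
        · rw [abs_mul, abs_mul, abs_of_pos hq0, hldef]
        · rw [abs_mul, abs_pow, ← hldef]
      have e3 : (q : ℝ) ^ 2 * |v| ≤ 1 / 4 := by
        have : (q : ℝ) ^ 2 * |v| ≤ |v| * q * X := by
          have : |v| * q * q ≤ |v| * q * X := mul_le_mul_of_nonneg_left hqX' (by positivity)
          linarith [show (q : ℝ) ^ 2 * |v| = |v| * q * q by ring]
        linarith
      have e4 : l ^ 2 * |(a : ℝ)| < 1 / 4 := by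
        have f1 : l ^ 2 * |(a : ℝ)| ≤ l ^ 2 * X := 
          mul_le_mul_of_nonneg_left (hxa'.trans hNX) (by positivity)
        have f2 : l ^ 2 * X * X ≤ C₁ ^ 2 := by
          have : (l * X) ^ 2 ≤ C₁ ^ 2 := pow_le_pow_left₀ (by positivity) hlX 2
          linarith [show l ^ 2 * X * X = (l * X) ^ 2 by ring]
        have f3 : l ^ 2 * X * (16 * C₁ ^ 2) ≤ C₁ ^ 2 := by
          have : l ^ 2 * X * (16 * C₁ ^ 2) ≤ l ^ 2 * X * X :=
            mul_le_mul_of_nonneg_left (by linarith) (by positivity)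
          linarith
        have f4 : l ^ 2 * X * 16 ≤ 1 := by
          have h0 : (0 : ℝ) < C₁ ^ 2 := by positivity
          have : l ^ 2 * X * 16 * C₁ ^ 2 ≤ 1 * C₁ ^ 2 := by linarith
          exact le_of_mul_le_mul_right this h0
        linarith
      have e5 : (q : ℝ) * l * |d| ≤ 1 / 4 := by
        rcases claimA ζ X c hXone hs a b e X (hxa'.trans hNX) (hxb'.trans hNX) he le_rfl with h | h
        · rw [← hv, ← hd, ← hY] at h
          have f1 : q * |d| ≤ 2 * κ * X := by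
            calc q * |d| ≤ q * (2 * |v| * X * Y) := mul_le_mul_of_nonneg_left h hq0.le
              _ = 2 * (|v| * (q * Y)) * X := by ring
              _ ≤ 2 * κ * X := by
                refine mul_le_mul_of_nonneg_right ?_ hX0.le
                linarith
          calc (q : ℝ) * l * |d| = l * (q * |d|) := by ring
            _ ≤ l * (2 * κ * X) := mul_le_mul_of_nonneg_left f1 hl0
            _ = 2 * κ * (l * X) := by ring
            _ ≤ 2 * κ * C₁ := mul_le_mul_of_nonneg_left hlX (by positivity)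
            _ ≤ 1 / 4 := hκ2
        · rw [← hv, ← hd] at h
          have f1 : |d| ≤ 1 := by
            rw [← sq_le_one_iff₀ (abs_nonneg d), sq_abs]
            have : |v| * X ≤ |v| * q * X := by
              have : |v| * X * 1 ≤ |v| * X * q := mul_le_mul_of_nonneg_left hq1 (by positivity)
              linarith [show |v| * X * q = |v| * q * X by ring]
            linarith [show 4 * X * |v| = 4 * (|v| * X) by ring]
          have f2 : (q : ℝ) * l ≤ 1 / 4 := by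
            refine le_of_sq_le_sq ?_ (by norm_num)
            have g1 : (q : ℝ) ^ 2 * (l * X) ^ 2 ≤ C₁ * X * C₁ ^ 2 :=
              mul_le_mul hqX (pow_le_pow_left₀ (by positivity) hlX 2) (by positivity)
                (by positivity)
            have g2 : ((q : ℝ) * l) ^ 2 * X * X ≤ C₁ ^ 3 * X := by
              calc ((q : ℝ) * l) ^ 2 * X * X = (q : ℝ) ^ 2 * (l * X) ^ 2 := by ring
                _ ≤ C₁ * X * C₁ ^ 2 := g1
                _ = C₁ ^ 3 * X := by ring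
            have g3 : ((q : ℝ) * l) ^ 2 * X ≤ C₁ ^ 3 := le_of_mul_le_mul_right g2 hX0
            have g4 : ((q : ℝ) * l) ^ 2 * (16 * C₁ ^ 3) ≤ ((q : ℝ) * l) ^ 2 * X :=
              mul_le_mul_of_nonneg_left hX1 (by positivity)
            have g5 : (((q : ℝ) * l) ^ 2 * 16) * C₁ ^ 3 ≤ 1 * C₁ ^ 3 := by linarith
            have g6 := le_of_mul_le_mul_right g5 hC3
            linarith
          calc (q : ℝ) * l * |d| ≤ q * l * 1 := mul_le_mul_of_nonneg_left f1 (by positivity)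
            _ ≤ 1 / 4 := by linarith
      rw [e1]
      linarith
    obtain ⟨n, m, ha, hb, he2⟩ := factor hq hpq hR
    have hvL : v = (q * ζ - p) * (n * ζ + m) := by
      rw [hv, ha, hb, he2]
      push_cast
      ring
    have hnm : |n * ζ + m| * q ≤ κ * C' := by
      have f1 : |v| = l * |n * ζ + m| := by rw [hvL, abs_mul, ← hldef]
      rw [f1] at hv1
      have f2 : |n * ζ + m| * q * 1 ≤ |n * ζ + m| * q * (C' * l * Y) :=
        mul_le_mul_of_nonneg_left hll.le (by positivity)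
      have f3 : |n * ζ + m| * q * (C' * l * Y) = l * |n * ζ + m| * (q * Y) * C' := by ring
      have f4 : l * |n * ζ + m| * (q * Y) * C' ≤ κ * C' :=
        mul_le_mul_of_nonneg_right hv1 hC'0.le
      linarith
    have hn : |(n : ℝ)| * q ≤ X := by
      have f1 : |(a : ℝ)| = |(n : ℝ)| * q := by
        rw [ha]
        push_cast
        rw [abs_mul, abs_of_pos hq0, mul_comm]
      rw [← f1]
      exact hxa'.trans hNX
    have hnl : |(n : ℝ)| * l < 1 / 2 := by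
      have f1 : |(n : ℝ)| * q * l ≤ X * l := mul_le_mul_of_nonneg_right hn hl0
      by_contra hcon
      rw [not_lt] at hcon
      have f2 : 1 / 2 * q ≤ |(n : ℝ)| * l * q := mul_le_mul_of_nonneg_right hcon hq0.le
      linarith [show |(n : ℝ)| * l * q = |(n : ℝ)| * q * l by ring, show X * l = l * X by ring]
    have hz : q * m + n * p = 0 := by
      apply int_zero
      have f1 : ((q * m + n * p : ℤ) : ℝ) = q * (n * ζ + m) - n * (q * ζ - p) := by
        push_cast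
        ring
      rw [f1]
      refine lt_of_le_of_lt (abs_sub _ _) ?_
      rw [abs_mul, abs_mul, abs_of_pos hq0, ← hldef]
      linarith
    obtain ⟨s, hs1, hs2⟩ := factor2 hq hpq hz
    rw [Finset.mem_image]
    refine ⟨s, ?_, ?_⟩
    · have f1 : |(s : ℝ)| ≤ X / (q : ℝ) ^ 2 := by
        rw [le_div_iff₀ (by positivity)]
        rw [hs1] at hn
        push_cast at hn
        rw [abs_mul, abs_of_pos hq0] at hn
        linarith
      have f2 : s.natAbs ≤ K := by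
        rw [hK]
        refine Nat.le_floor ?_
        rw [Nat.cast_natAbs]
        exact_mod_cast f1
      rw [Finset.mem_Icc]
      omega
    · rw [ha, hb, he2, hs1, hs2]
      refine Prod.ext ?_ (Prod.ext ?_ ?_)
      · simp only; ring
      · simp only; ring
      · simp only; ring
  have hcard : S.card ≤ 2 * K + 1 := by
    refine (Finset.card_le_card hsub).trans (Finset.card_image_le.trans ?_)
    rw [Int.card_Icc]
    omega
  have hKX : (K : ℝ) * (q : ℝ) ^ 2 ≤ X := by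
    have : (K : ℝ) ≤ X / (q : ℝ) ^ 2 := by rw [hK]; exact Nat.floor_le (by positivity)
    rwa [le_div_iff₀ (by positivity)] at this
  have h1 : ((N : ℝ) + 1) ^ 2 ≤ T * (2 * K + 2) := by
    have h2 : (N + 1) ^ 2 ≤ T * (2 * K + 2) := hS1.trans (Nat.mul_le_mul_left _ (by omega))
    exact_mod_cast h2
  have h2 : X ^ 2 ≤ Z ^ 2 * (2 * (q * Y / κ) * (2 * K + 2)) := by
    have h3 : (X / Z) ^ 2 ≤ ((N : ℝ) + 1) ^ 2 := pow_le_pow_left₀ (by positivity) hN2.le 2
    have h4 : (T : ℝ) * (2 * K + 2) ≤ 2 * (q * Y / κ) * (2 * K + 2) :=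
      mul_le_mul_of_nonneg_right hT2 (by positivity)
    have h5 : (X / Z) ^ 2 ≤ 2 * (q * Y / κ) * (2 * K + 2) := h3.trans (h1.trans h4)
    rw [div_pow, div_le_iff₀ (by positivity)] at h5
    linarith
  have h3 : (q : ℝ) * X ^ 2 ≤ 4 * Z ^ 2 * (1 + C₁) / κ * (Y * X) := by
    calc (q : ℝ) * X ^ 2 ≤ q * (Z ^ 2 * (2 * (q * Y / κ) * (2 * K + 2))) :=
          mul_le_mul_of_nonneg_left h2 hq0.le
      _ = 4 * Z ^ 2 / κ * Y * (K * (q : ℝ) ^ 2 + (q : ℝ) ^ 2) := by
          field_simp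
          ring
      _ ≤ 4 * Z ^ 2 / κ * Y * (X + C₁ * X) := by
          refine mul_le_mul_of_nonneg_left ?_ (by positivity)
          linarith
      _ = _ := by field_simp
  have h4 : (q : ℝ) ≤ 4 * Z ^ 2 * (1 + C₁) / κ * X ^ c := by
    have h5 : (q : ℝ) * X ^ 2 ≤ 4 * Z ^ 2 * (1 + C₁) / κ * X ^ c * X ^ 2 := by
      rw [hYX] at h3
      calc (q : ℝ) * X ^ 2 ≤ _ := h3
        _ = _ := by ring
    exact le_of_mul_le_mul_right h5 (by positivity)
  exact h4.trans (mul_le_mul_of_nonneg_right (le_max_right _ _) (by positivity))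

end ExclAux

theorem exclusion (ζ c C₁ : ℝ) (_hζ : Irrational ζ) (hc : 0 < c) (_hc' : c < 1 / 100) :
    ∃ C X₀ : ℝ, ∀ X : ℝ, X₀ ≤ X → Star ζ X c → ∀ p q : ℤ, 0 < q → IsCoprime p q →
      (q : ℝ) ^ 2 ≤ C₁ * X → |q * ζ - p| ≤ C₁ * X⁻¹ → (q : ℝ) ≤ C * X ^ c := by
  obtain ⟨C, X₀, h⟩ := ExclAux.main ζ c (max C₁ 1) hc (le_max_right _ _)
  refine ⟨C, max X₀ 1, fun X hX hs p q hq hpq h1 h2 => ?_⟩
  have hX0 : 0 < X := lt_of_lt_of_le one_pos ((le_max_right _ _).trans hX)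
  refine h X ((le_max_left _ _).trans hX) hs p q hq hpq (h1.trans ?_) (h2.trans ?_)
  · exact mul_le_mul_of_nonneg_right (le_max_left _ _) hX0.le
  · exact mul_le_mul_of_nonneg_right (le_max_left _ _) (inv_pos.2 hX0).le

end Pool.Agent.K4H73.UL
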