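import Mathlib
import Pool.Agent.K4H73.UL.Defs

set_option autoImplicit false

namespace Pool.Agent.K4H73.UL

open Polynomial

namespace F1

theorem coeff_le (P : ℤ[X]) (i : ℕ) : |((P.coeff i : ℤ) : ℝ)| ≤ (ht P : ℝ) := by
  by_cases hi : i ≤ P.natDegree
  · have h1 : (P.coeff i).natAbs ≤ ht P := by
      unfold ht
      exact Finset.le_sup (f := fun i => (P.coeff i).natAbs) (Finset.mem_range.mpr (by omega))
    have h2 : |((P.coeff i : ℤ) : ℝ)| = ((P.coeff i).natAbs : ℝ) := by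
      rw [Nat.cast_natAbs, Int.cast_abs]
    rw [h2]; exact_mod_cast h1
  · rw [Polynomial.coeff_eq_zero_of_natDegree_lt (by omega)]
    simp

theorem one_le_ht (P : ℤ[X]) (hP : P ≠ 0) : 1 ≤ ht P := by
  have h1 : (P.coeff P.natDegree).natAbs ≤ ht P := by
    unfold ht
    exact Finset.le_sup (f := fun i => (P.coeff i).natAbs) (Finset.mem_range.mpr (by omega))
  have h2 : P.coeff P.natDegree ≠ 0 := by
    simpa using hP
  have := Int.natAbs_pos.mpr h2
  omega

theorem lip (P : ℤ[X]) (n : ℕ) (hn : P.natDegree ≤ n) (B x y : ℝ) (hB : 1 ≤ B) (hx : |x| ≤ B)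
    (hy : |y| ≤ B) :
    |aeval x P - aeval y P| ≤ ((n + 1) * n * B ^ n) * ht P * |x - y| := by
  rw [aeval_eq_sum_range' (by omega : P.natDegree < n + 1),
    aeval_eq_sum_range' (by omega : P.natDegree < n + 1), ← Finset.sum_sub_distrib]
  refine (Finset.abs_sum_le_sum_abs _ _).trans ?_
  have key : ∀ i ∈ Finset.range (n + 1), |P.coeff i • x ^ i - P.coeff i • y ^ i| ≤
      n * B ^ n * ht P * |x - y| := by
    intro i hi
    have hin : i ≤ n := by have := Finset.mem_range.mp hi; omega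
    rw [← smul_sub, zsmul_eq_mul, abs_mul]
    have h1 := abs_pow_sub_pow_le (a := x) (b := y) (n := i)
    have h2 : max |x| |y| ^ (i - 1) ≤ B ^ n := by
      have h3 : max |x| |y| ≤ B := max_le hx hy
      have h4 : 0 ≤ max |x| |y| := le_max_of_le_left (abs_nonneg x)
      calc max |x| |y| ^ (i - 1) ≤ B ^ (i - 1) := by gcongr
        _ ≤ B ^ n := pow_le_pow_right₀ hB (by omega)
    have h5 : |x ^ i - y ^ i| ≤ |x - y| * n * B ^ n := by
      refine h1.trans ?_
      have h6 : (i : ℝ) ≤ n := by exact_mod_cast hin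
      have h7 : 0 ≤ max |x| |y| ^ (i - 1) :=
        pow_nonneg (le_max_of_le_left (abs_nonneg x)) _
      gcongr
    calc |((P.coeff i : ℤ) : ℝ)| * |x ^ i - y ^ i| ≤ ht P * (|x - y| * n * B ^ n) := by
          gcongr
          exact coeff_le P i
      _ = n * B ^ n * ht P * |x - y| := by ring
  refine (Finset.sum_le_sum key).trans ?_
  rw [Finset.sum_const, Finset.card_range, nsmul_eq_mul]
  push_cast
  apply le_of_eq
  ring

/-- an irreducible integral polynomial with a rational root has only that real root -/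
theorem root_unique (P : ℤ[X]) (hP : Irreducible P) (α : ℝ) (hα : aeval α P = 0) (r : ℚ)
    (hr : aeval (r : ℝ) P = 0) : α = r := by
  have hd : P.natDegree ≠ 0 := by
    intro h0
    have h1 := Polynomial.eq_C_of_natDegree_eq_zero h0
    rw [h1, aeval_C] at hα
    have h2 : P.coeff 0 = 0 := by
      simpa using hα
    rw [h2] at h1
    exact hP.ne_zero (by rw [h1]; simp)
  have hprim : P.IsPrimitive := hP.isPrimitive hd
  have hirr : Irreducible (P.map (Int.castRingHom ℚ)) :=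
    (IsPrimitive.Int.irreducible_iff_irreducible_map_cast hprim).mp hP
  have hroot : IsRoot (P.map (Int.castRingHom ℚ)) r := by
    have h1 : aeval (r : ℝ) P = ((eval r (P.map (Int.castRingHom ℚ)) : ℚ) : ℝ) := by
      rw [eval_map, aeval_def, eval₂_eq_sum_range, eval₂_eq_sum_range]
      push_cast
      simp
    rw [h1] at hr
    exact_mod_cast hr
  have hdeg := degree_eq_one_of_irreducible_of_root hirr hroot
  have hinj : Function.Injective (Int.castRingHom ℚ) := Int.cast_injective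
  have hnd : P.natDegree = 1 := by
    rw [← natDegree_map_eq_of_injective hinj P]
    exact natDegree_eq_of_degree_eq_some hdeg
  have hα' : aeval α P = (P.coeff 0 : ℝ) + (P.coeff 1 : ℝ) * α := by
    rw [aeval_eq_sum_range' (by omega : P.natDegree < 2)]
    simp [Finset.sum_range_succ]
  have hr' : aeval (r : ℝ) P = (P.coeff 0 : ℝ) + (P.coeff 1 : ℝ) * r := by
    rw [aeval_eq_sum_range' (by omega : P.natDegree < 2)]
    simp [Finset.sum_range_succ]
  have hc : (P.coeff 1 : ℝ) ≠ 0 := by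
    have : P.coeff P.natDegree ≠ 0 := by simpa using hP.ne_zero
    rw [hnd] at this
    exact_mod_cast this
  have : (P.coeff 1 : ℝ) * (α - r) = 0 := by linarith
  rcases mul_eq_zero.mp this with h | h
  · exact absurd h hc
  · linarith

end F1

open F1 in
theorem upper_of_liouville (ζ : ℝ) (hL : Liouville ζ) (n : ℕ) (w : ℝ) (hw : 1 < w) (H₀ : ℝ) :
    ∃ H : ℝ, H₀ ≤ H ∧ ∀ α : ℝ, ∀ P : ℤ[X], Irreducible P → P.natDegree ≤ n → aeval α P = 0 →
      (ht P : ℝ) ≤ H → 0 < |ζ - α| → (ht P : ℝ)⁻¹ * H ^ (-w) < |ζ - α| := by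
  set B : ℝ := |ζ| + 2 with hB
  have hB1 : 1 ≤ B := by have := abs_nonneg ζ; linarith
  set K : ℝ := (n + 1) * n * B ^ n with hK
  have hK0 : 0 ≤ K := by positivity
  have hw0 : 0 < w := by linarith
  set s : ℝ := 1 - 1 / w with hs
  have hs0 : 0 < s := by
    have : 1 / w < 1 := by rw [div_lt_one hw0]; exact hw
    linarith
  obtain ⟨M, hM⟩ : ∃ M : ℕ, 4 * K < 2 ^ M := pow_unbounded_of_one_lt _ (by norm_num)
  obtain ⟨N1, hN1⟩ : ∃ N1 : ℕ, (n + M : ℝ) / s ≤ N1 := exists_nat_ge _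
  obtain ⟨N2, hN2⟩ : ∃ N2 : ℕ, (max H₀ 1) ^ w < 2 ^ N2 := pow_unbounded_of_one_lt _ (by norm_num)
  set N : ℕ := N1 + N2 with hN
  obtain ⟨p, q, hq1, hne, hlt⟩ := hL N
  have hq2 : (2 : ℝ) ≤ q := by exact_mod_cast hq1
  have hq0 : (0 : ℝ) < q := by linarith
  set δ : ℝ := |ζ - p / q| with hδ
  have hδ0 : 0 < δ := abs_pos.mpr (sub_ne_zero.mpr hne)
  have hδN2 : δ < 1 / 2 ^ N2 := by
    refine hlt.trans_le ?_
    apply one_div_le_one_div_of_le (by positivity)
    calc (2 : ℝ) ^ N2 ≤ 2 ^ N := pow_le_pow_right₀ (by norm_num) (by omega)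
      _ ≤ (q : ℝ) ^ N := by gcongr
  have hmax1 : (1 : ℝ) ≤ max H₀ 1 := le_max_right _ _
  set H : ℝ := (2 / δ) ^ (1 / w) with hH
  have h2δ : 0 < 2 / δ := by positivity
  have hHge : max H₀ 1 ≤ H := by
    have h1 : (max H₀ 1) ^ w ≤ 2 / δ := by
      have h2 : (2 : ℝ) ^ N2 < 1 / δ := by
        rw [lt_div_iff₀ hδ0]
        rw [lt_div_iff₀ (by positivity)] at hδN2
        linarith
      have h3 : 1 / δ ≤ 2 / δ := by gcongr; norm_num
      linarith
    have h4 : max H₀ 1 = ((max H₀ 1) ^ w) ^ (1 / w) := by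
      rw [← Real.rpow_mul (by linarith), mul_one_div_cancel hw0.ne', Real.rpow_one]
    rw [h4, hH]
    exact Real.rpow_le_rpow (by positivity) h1 (by positivity)
  have hH1 : 1 ≤ H := hmax1.trans hHge
  have hH0 : 0 < H := by linarith
  have hHw : H ^ (-w) = δ / 2 := by
    rw [hH, ← Real.rpow_mul h2δ.le, show 1 / w * -w = -1 by field_simp, Real.rpow_neg_one, inv_div]
  refine ⟨H, (le_max_left _ _).trans hHge, ?_⟩
  intro α P hP hPn hα hPH hαpos
  rw [hHw]
  have hht : (1 : ℝ) ≤ ht P := by exact_mod_cast one_le_ht P hP.ne_zero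
  have hhtinv : ((ht P : ℝ))⁻¹ ≤ 1 := inv_le_one_of_one_le₀ hht
  have hhtpos : 0 < ((ht P : ℝ))⁻¹ := by positivity
  by_cases hαpq : α = p / q
  · rw [hαpq, ← hδ]
    nlinarith
  by_contra hcon
  rw [not_lt] at hcon
  have hδ1 : δ ≤ 1 := by
    refine hδN2.le.trans ?_
    rw [div_le_one (by positivity)]
    exact one_le_pow₀ (by norm_num)
  have hα1 : |ζ - α| ≤ 1 := by nlinarith
  have hαB : |α| ≤ B := by
    have := abs_sub_abs_le_abs_sub α ζ
    rw [abs_sub_comm] at this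
    linarith
  have hpqB : |(p : ℝ) / q| ≤ B := by
    have := abs_sub_abs_le_abs_sub ((p : ℝ) / q) ζ
    rw [abs_sub_comm] at this
    linarith
  -- the value at `p / q` is nonzero
  have hval : aeval ((p : ℝ) / q) P ≠ 0 := by
    intro h0
    apply hαpq
    have h1 := root_unique P hP α hα ((p : ℚ) / q) (by push_cast; exact h0)
    rw [h1]; push_cast; rfl
  have hev : eval ((p : ℝ) / q) (P.map (algebraMap ℤ ℝ)) = aeval ((p : ℝ) / q) P := by
    rw [eval_map, aeval_def]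
  have hone := one_le_pow_mul_abs_eval_div (K := ℝ) (f := P) (a := p) (b := q) (by omega)
    (by rw [hev]; exact hval)
  rw [hev] at hone
  have hone' : 1 ≤ (q : ℝ) ^ n * |aeval ((p : ℝ) / q) P| := by
    refine hone.trans ?_
    have : (q : ℝ) ^ P.natDegree ≤ (q : ℝ) ^ n := pow_le_pow_right₀ (by linarith) hPn
    gcongr
  have hlip := lip P n hPn B ((p : ℝ) / q) α hB1 hpqB hαB
  rw [hα, sub_zero, ← hK] at hlip
  have htri : |(p : ℝ) / q - α| ≤ δ + (ht P : ℝ)⁻¹ * (δ / 2) := by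
    have h1 : (p : ℝ) / q - α = -(ζ - p / q) + (ζ - α) := by ring
    rw [h1]
    refine (abs_add_le _ _).trans ?_
    rw [abs_neg, ← hδ]
    linarith
  have hbd : |aeval ((p : ℝ) / q) P| ≤ 2 * K * (H * δ) := by
    refine hlip.trans ?_
    calc K * ht P * |(p : ℝ) / q - α| ≤ K * ht P * (δ + (ht P : ℝ)⁻¹ * (δ / 2)) := by gcongr
      _ = K * (ht P * δ + δ / 2) := by
        field_simp
      _ ≤ K * (H * δ + H * δ) := by
        apply mul_le_mul_of_nonneg_left _ hK0
        have h1 : ht P * δ ≤ H * δ := by gcongr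
        have h2 : δ / 2 ≤ H * δ := by nlinarith
        linarith
      _ = 2 * K * (H * δ) := by ring
  have hHδ : H * δ ≤ 2 * δ ^ s := by
    have h1 : H = 2 ^ (1 / w) * (δ ^ (1 / w))⁻¹ := by
      rw [hH, Real.div_rpow (by norm_num) hδ0.le]; rfl
    have h2 : δ = δ ^ (1 / w) * δ ^ s := by
      rw [← Real.rpow_add hδ0, hs]
      rw [show 1 / w + (1 - 1 / w) = 1 by ring, Real.rpow_one]
    have h3 : H * δ = 2 ^ (1 / w) * δ ^ s := by
      have h4 : δ ^ (1 / w) ≠ 0 := (Real.rpow_pos_of_pos hδ0 _).ne'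
      calc H * δ = (2 ^ (1 / w) * (δ ^ (1 / w))⁻¹) * (δ ^ (1 / w) * δ ^ s) := by rw [← h2, ← h1]
        _ = 2 ^ (1 / w) * δ ^ s * ((δ ^ (1 / w))⁻¹ * δ ^ (1 / w)) := by ring
        _ = 2 ^ (1 / w) * δ ^ s := by rw [inv_mul_cancel₀ h4, mul_one]
    rw [h3]
    have h5 : (2 : ℝ) ^ (1 / w) ≤ 2 := by
      calc (2 : ℝ) ^ (1 / w) ≤ 2 ^ (1 : ℝ) := by
            apply Real.rpow_le_rpow_of_exponent_le (by norm_num)
            rw [div_le_one hw0]; exact hw.le
        _ = 2 := Real.rpow_one 2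
    have h6 : 0 ≤ δ ^ s := (Real.rpow_pos_of_pos hδ0 _).le
    gcongr
  have hδs : δ ^ s ≤ ((q : ℝ) ^ (n + M))⁻¹ := by
    have h1 : δ ^ s ≤ (1 / (q : ℝ) ^ N) ^ s := Real.rpow_le_rpow hδ0.le hlt.le hs0.le
    refine h1.trans ?_
    rw [one_div, Real.inv_rpow (by positivity)]
    apply inv_anti₀ (by positivity)
    rw [← Real.rpow_natCast, ← Real.rpow_natCast, ← Real.rpow_mul hq0.le]
    apply Real.rpow_le_rpow_of_exponent_le (by linarith)
    rw [div_le_iff₀ hs0] at hN1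
    push_cast
    have h5 : (N1 : ℝ) ≤ N := by exact_mod_cast (by omega : N1 ≤ N)
    exact hN1.trans (mul_le_mul_of_nonneg_right h5 hs0.le)
  have hHδ2 : H * δ ≤ 2 * ((q : ℝ) ^ (n + M))⁻¹ := hHδ.trans (by gcongr)
  have hfin : 1 ≤ 4 * K * ((q : ℝ) ^ M)⁻¹ := by
    calc (1 : ℝ) ≤ (q : ℝ) ^ n * |aeval ((p : ℝ) / q) P| := hone'
      _ ≤ (q : ℝ) ^ n * (2 * K * (2 * ((q : ℝ) ^ (n + M))⁻¹)) := by
        apply mul_le_mul_of_nonneg_left _ (by positivity)
        exact hbd.trans (mul_le_mul_of_nonneg_left hHδ2 (by positivity))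
      _ = 4 * K * ((q : ℝ) ^ M)⁻¹ := by
        rw [pow_add]
        field_simp
        ring
  have hqM : (2 : ℝ) ^ M ≤ (q : ℝ) ^ M := by gcongr
  have hqM0 : (0 : ℝ) < (q : ℝ) ^ M := by positivity
  rw [← div_eq_mul_inv, le_div_iff₀ hqM0] at hfin
  linarith

end Pool.Agent.K4H73.UL
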