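import Mathlib
import Pool.Agent.K4H73.UL.Defs

/-!
# Dirichlet's theorem in terms of irreducible linear polynomials
-/

set_option autoImplicit false

namespace Pool.Agent.K4H73.UL

open Polynomial

namespace F2

lemma nd (p q : ℤ) (hq : q ≠ 0) : (C q * X + C (-p) : ℤ[X]).natDegree = 1 :=
  natDegree_linear hq

lemma ht_lin (p q : ℤ) (hq : q ≠ 0) : ht (C q * X + C (-p) : ℤ[X]) = max p.natAbs q.natAbs := by
  rw [ht, nd p q hq]
  have h1 : Finset.range (1 + 1) = {0, 1} := by decide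
  have h2 : (C q * X + C (-p) : ℤ[X]).coeff 0 = -p := by
    rw [coeff_add, coeff_C_mul, coeff_X_zero, mul_zero, zero_add, coeff_C_zero]
  have h3 : (C q * X + C (-p) : ℤ[X]).coeff 1 = q := by
    rw [coeff_add, coeff_C_mul, coeff_X_one, mul_one, coeff_C_of_ne_zero one_ne_zero, add_zero]
  rw [h1, Finset.sup_insert, Finset.sup_singleton, h2, h3, Int.natAbs_neg]

end F2

theorem dirichlet (ζ : ℝ) (hζ : Irrational ζ) (w : ℝ) (hw : w < 1) :
    ∃ H₀ : ℝ, ∀ H : ℝ, H₀ ≤ H → ∃ α : ℝ, ∃ P : ℤ[X], Irreducible P ∧ P.natDegree = 1 ∧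
      aeval α P = 0 ∧ (ht P : ℝ) ≤ H ∧ 0 < |ζ - α| ∧ |ζ - α| ≤ (ht P : ℝ)⁻¹ * H ^ (-w) := by
  set K : ℝ := |ζ| + 1 with hK
  have hK1 : 1 ≤ K := by
    have := abs_nonneg ζ
    linarith
  have hK0 : 0 < K := by linarith
  have hw' : 0 < 1 - w := by linarith
  refine ⟨max K ((K ^ 2) ^ (1 / (1 - w))), fun H hH => ?_⟩
  have hHK : K ≤ H := (le_max_left _ _).trans hH
  have hHw : (K ^ 2) ^ (1 / (1 - w)) ≤ H := (le_max_right _ _).trans hH
  have hH0 : 0 < H := by linarith
  set Q : ℕ := ⌊H / K⌋₊ with hQ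
  have hQ1 : 1 ≤ Q := by
    rw [hQ, Nat.one_le_floor_iff, le_div_iff₀ hK0, one_mul]
    exact hHK
  obtain ⟨r, hr1, hr2⟩ := Real.exists_rat_abs_sub_le_and_den_le ζ (n := Q) (by omega)
  have hden : 0 < r.den := r.den_pos
  have hden' : (0 : ℝ) < r.den := by exact_mod_cast hden
  have hden1 : (1 : ℝ) ≤ r.den := by exact_mod_cast hden
  have hQ0 : (0 : ℝ) < Q := by exact_mod_cast hQ1
  have hdq : ((r.den : ℤ)) ≠ 0 := by exact_mod_cast hden.ne'
  set P : ℤ[X] := C (r.den : ℤ) * X + C (-r.num) with hP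
  have hirr : Irreducible P := by
    refine irreducible_C_mul_X_add_C hdq ?_
    have h1 : IsCoprime (r.den : ℤ) (-r.num) := by
      rw [IsCoprime.neg_right_iff]
      refine (Int.isCoprime_iff_gcd_eq_one.2 ?_).symm
      have h2 := r.reduced
      simpa [Int.gcd, Nat.Coprime] using h2
    exact h1.isRelPrime
  have hr : (r : ℝ) = r.num / r.den := by
    rw [Rat.cast_def]
  have haev : aeval (r : ℝ) P = 0 := by
    rw [hP, map_add, map_mul, aeval_X, aeval_C, aeval_C, hr]
    simp only [algebraMap_int_eq, eq_intCast]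
    push_cast
    field_simp
    ring
  have hnum : |(r.num : ℝ)| ≤ K * r.den := by
    have h1 : |(r : ℝ)| ≤ K := by
      have h2 : |ζ - r| ≤ 1 := by
        refine hr1.trans ?_
        rw [div_le_one (by positivity)]
        nlinarith
      have h3 : |(r : ℝ)| ≤ |ζ| + |ζ - r| := by
        have h4 : (r : ℝ) = ζ - (ζ - r) := by ring
        rw [h4]
        refine (abs_sub _ _).trans (le_of_eq ?_)
        ring_nf
      linarith
    rw [hr, abs_div, abs_of_pos hden', div_le_iff₀ hden'] at h1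
    exact h1
  have hht : (ht P : ℝ) ≤ K * r.den := by
    rw [hP, F2.ht_lin r.num r.den hdq]
    rw [Nat.cast_max]
    refine max_le ?_ ?_
    · rw [Nat.cast_natAbs, Int.cast_abs]
      exact hnum
    · rw [Int.natAbs_natCast]
      nlinarith
  have hht1 : (1 : ℝ) ≤ ht P := by
    rw [hP, F2.ht_lin r.num r.den hdq]
    have h1 : 1 ≤ max r.num.natAbs (r.den : ℤ).natAbs := by
      rw [Int.natAbs_natCast]
      exact le_max_of_le_right hden
    exact_mod_cast h1
  have hht0 : (0 : ℝ) < ht P := by linarith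
  refine ⟨r, P, hirr, F2.nd _ _ hdq, haev, ?_, ?_, ?_⟩
  · have h1 : (r.den : ℝ) ≤ Q := by exact_mod_cast hr2
    have h2 : (Q : ℝ) ≤ H / K := Nat.floor_le (by positivity)
    calc (ht P : ℝ) ≤ K * r.den := hht
      _ ≤ K * (H / K) := mul_le_mul_of_nonneg_left (h1.trans h2) hK0.le
      _ = H := by field_simp
  · rw [abs_pos, sub_ne_zero]
    intro h
    exact hζ ⟨r, h.symm⟩
  · rw [← div_eq_inv_mul, le_div_iff₀ hht0]
    have hQ2 : H / K < Q + 1 := Nat.lt_floor_add_one _
    have h1 : |ζ - r| * ht P ≤ 1 / ((Q + 1) * r.den) * (K * r.den) :=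
      mul_le_mul hr1 hht hht0.le (by positivity)
    have h2 : 1 / (((Q : ℝ) + 1) * r.den) * (K * r.den) = K / (Q + 1) := by
      field_simp
    rw [h2] at h1
    refine h1.trans ?_
    have h3 : K / ((Q : ℝ) + 1) ≤ K ^ 2 / H := by
      rw [div_lt_iff₀ hK0] at hQ2
      rw [div_le_div_iff₀ (by positivity) hH0]
      nlinarith
    refine h3.trans ?_
    have h4 : K ^ 2 ≤ H ^ (1 - w) := by
      have h5 := Real.rpow_le_rpow (by positivity) hHw hw'.le
      rw [← Real.rpow_mul (by positivity), one_div_mul_cancel hw'.ne', Real.rpow_one] at h5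
      exact h5
    rw [div_le_iff₀ hH0]
    have h5 : H ^ (-w) * H = H ^ (1 - w) := by
      rw [← Real.rpow_add_one hH0.ne']
      congr 1
      ring
    rw [h5]
    exact h4

end Pool.Agent.K4H73.UL
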