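import Mathlib
import Pool.Agent.K4H73.UL.Defs

/-!
# Liouville numbers from the approximations at all scales
-/

set_option autoImplicit false

namespace Pool.Agent.K4H73.UL

open Polynomial

theorem liouville_of (ζ : ℝ) (hζ : Irrational ζ)
    (hcore : ∀ c : ℝ, 0 < c → c < 1 / 100 → ∃ C X₀ : ℝ, ∀ X : ℝ, X₀ ≤ X → Star ζ X c →
      ∃ p q : ℤ, 0 < q ∧ (q : ℝ) ≤ C * X ^ (4 * c) ∧ |q * ζ - p| ≤ C * X ^ (-1 + 3 * c))
    (hst : ∀ c : ℝ, 0 < c → ∀ H₀ : ℝ, ∃ X : ℝ, H₀ ≤ X ∧ Star ζ X c) : Liouville ζ := by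
  intro k
  set c : ℝ := 1 / (200 * (k + 1)) with hc
  have hk0 : (0 : ℝ) ≤ k := by positivity
  have hc0 : 0 < c := by positivity
  have hck : c * (k + 1) = 1 / 200 := by
    rw [hc]
    field_simp
  have hc1 : c < 1 / 100 := by nlinarith
  obtain ⟨C, X₀, h⟩ := hcore c hc0 hc1
  set K : ℝ := (2 * |C|) ^ k * |C| with hK
  have hK0 : 0 ≤ K := by positivity
  obtain ⟨X, hX, hs⟩ := hst c hc0 (max X₀ ((K + 1) ^ 2 + 1))
  have hX0 : X₀ ≤ X := (le_max_left _ _).trans hX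
  have hXK : (K + 1) ^ 2 + 1 ≤ X := (le_max_right _ _).trans hX
  have hX1 : 1 ≤ X := by nlinarith
  have hXp : 0 < X := by linarith
  obtain ⟨p, q, hq, hq1, hq2⟩ := h X hX0 hs
  have hq' : (1 : ℝ) ≤ q := by exact_mod_cast hq
  refine ⟨2 * p, 2 * q, by omega, ?_, ?_⟩
  · intro h1
    apply hζ
    refine ⟨(2 * p : ℤ) / (2 * q : ℤ), ?_⟩
    rw [h1]
    push_cast
    rfl
  · have hq0 : (0 : ℝ) < q := by linarith
    have h1 : ζ - ((2 * p : ℤ) : ℝ) / ((2 * q : ℤ) : ℝ) = (q * ζ - p) / q := by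
      push_cast
      field_simp
    rw [h1, abs_div, abs_of_pos hq0]
    have h2 : (0 : ℝ) < ((2 * q : ℤ) : ℝ) := by
      push_cast
      linarith
    rw [lt_div_iff₀ (pow_pos h2 k)]
    have hCle : C ≤ |C| := le_abs_self C
    have h3 : |q * ζ - p| / q ≤ |C| * X ^ (-1 + 3 * c) := by
      rw [div_le_iff₀ hq0]
      have h4 : 0 ≤ |C| * X ^ (-1 + 3 * c) := by positivity
      calc |q * ζ - p| ≤ C * X ^ (-1 + 3 * c) := hq2
        _ ≤ |C| * X ^ (-1 + 3 * c) := mul_le_mul_of_nonneg_right hCle (by positivity)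
        _ ≤ |C| * X ^ (-1 + 3 * c) * q := le_mul_of_one_le_right h4 hq'
    have h4 : (((2 * q : ℤ) : ℝ)) ^ k ≤ (2 * |C|) ^ k * X ^ (4 * c * k) := by
      have h5 : ((2 * q : ℤ) : ℝ) ≤ (2 * |C|) * X ^ (4 * c) := by
        push_cast
        have h6 : (q : ℝ) ≤ |C| * X ^ (4 * c) :=
          hq1.trans (mul_le_mul_of_nonneg_right hCle (by positivity))
        linarith
      have h6 := pow_le_pow_left₀ h2.le h5 k
      rw [mul_pow, ← Real.rpow_natCast (X ^ (4 * c)) k, ← Real.rpow_mul hXp.le] at h6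
      exact h6
    have h5 : |q * ζ - p| / q * (((2 * q : ℤ) : ℝ)) ^ k ≤
        (|C| * X ^ (-1 + 3 * c)) * ((2 * |C|) ^ k * X ^ (4 * c * k)) :=
      mul_le_mul h3 h4 (by positivity) (by positivity)
    refine lt_of_le_of_lt h5 ?_
    have h6 : (|C| * X ^ (-1 + 3 * c)) * ((2 * |C|) ^ k * X ^ (4 * c * k)) =
        K * X ^ (-1 + 3 * c + 4 * c * k) := by
      rw [Real.rpow_add hXp (-1 + 3 * c) (4 * c * k), hK]
      ring
    rw [h6]
    have h7 : X ^ (-1 + 3 * c + 4 * c * k) ≤ X ^ (-(1 / 2 : ℝ)) := by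
      refine Real.rpow_le_rpow_of_exponent_le hX1 ?_
      nlinarith
    have h8 : X ^ (-(1 / 2 : ℝ)) = (√X)⁻¹ := by
      rw [Real.rpow_neg hXp.le, ← Real.sqrt_eq_rpow]
    have h9 : K + 1 ≤ √X := by
      apply Real.le_sqrt_of_sq_le
      linarith
    have h10 : 0 < √X := Real.sqrt_pos.2 hXp
    calc K * X ^ (-1 + 3 * c + 4 * c * k) ≤ K * (√X)⁻¹ := by
          rw [← h8]
          exact mul_le_mul_of_nonneg_left h7 hK0
      _ < 1 := by
          rw [← div_eq_mul_inv, div_lt_one h10]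
          linarith

end Pool.Agent.K4H73.UL
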